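import Mathlib
import Pool.Agent.H789R5.RF.Rank
import Pool.Agent.H789R5.RF.TD

/-!
# The generic rigidity matroid on graphs of treewidth at most `d + 1`

A formula for the rank of a graph in the generic `d`-dimensional rigidity matroid, and with it a
characterization of generic rigidity in `ℝ^d`, for all graphs which can
be dismantled by removing vertices of degree at most `d + 1`, the neighbourhoods of the removed
vertices of degree `d + 1` being completed. All graphs of treewidth at most `d + 1` are of this
kind. For `d = 3` these are the graphs of treewidth at most four.

The formula is the one which Clinch, Jackson and Tanigawa proved for the generic `C_2^1`-cofactor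
matroid (`d = 3`): the rank is the minimum of `|E(G ∪ K_{A_1} ∪ … ∪ K_{A_t})| - t` over all
sequences of sets `A_1, …, A_t` with `d + 2` vertices such that each contains a pair which is
contained in none of the sets before it.
-/

set_option autoImplicit false

namespace Pool.Agent.Results.MP_37c7bf_co.TreewidthRank

open Pool.Agent.H283R2.DR Pool.Agent.H789R5

theorem result (d : ℕ) (V : Type) [Fintype V] (G : SimpleGraph V) :
    (TreewidthLE (d + 1) G → Elim d G) ∧
    (Elim d G →
      IsLeast {m : ℕ | ∃ L : List (Finset V), Proper (d + 2) L ∧
        m + L.length = (cover G L).edgeSet.ncard} (genRank d G) ∧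
      (d ≤ Fintype.card V → (GenRigid d G ↔ ∀ L : List (Finset V), Proper (d + 2) L →
        d * Fintype.card V + L.length ≤ (cover G L).edgeSet.ncard + d * (d + 1) / 2))) := by
  classical
  refine ⟨elim_of_treewidth, fun hG => ?_⟩
  obtain ⟨p, hp⟩ := exists_mg V d
  obtain ⟨L, hL, hLeq⟩ := lower hp hG
  have hr := genRank_add hp G
  have hup : ∀ L : List (Finset V), Proper (d + 2) L →
      genRank d G + L.length ≤ (cover G L).edgeSet.ncard := by
    intro L hL
    have := upper hp G hL
    omega
  refine ⟨⟨⟨L, hL, by omega⟩, ?_⟩, ?_⟩
  · rintro m ⟨L', hL', hm⟩
    have := hup L' hL'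
    omega
  · intro hd
    rw [genRigid_iff hp hd]
    constructor
    · intro h L' hL'
      have := hup L' hL'
      omega
    · intro h
      have := h L hL
      omega

end Pool.Agent.Results.MP_37c7bf_co.TreewidthRank
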